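import Pool.Agent.SSF.Stmts

/-!
# SSF PRM: the projection
-/

set_option autoImplicit false

open Set Topology Filter
open scoped BigOperators

namespace Pool.Agent.SSF.H56

open Pool.Agent.LSG Pool.Agent.LPR Pool.Agent.SSF

/-- the extension of a sequence by a value at infinity -/
noncomputable def ex {Y : Type} (f : ℕ → Y) (c : Y) : OnePoint ℕ → Y := fun n => OnePoint.elim n c f

theorem ex_nat {Y : Type} (f : ℕ → Y) (c : Y) (n : ℕ) : ex f c (n : OnePoint ℕ) = f n := rfl

theorem ex_inf {Y : Type} (f : ℕ → Y) (c : Y) : ex f c OnePoint.infty = c := rfl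

theorem ex_cont (f : ℕ → ℝ) (c : ℝ) (h : Tendsto f atTop (𝓝 c)) : Continuous (ex f c) := by
  rw [OnePoint.continuous_iff_from_nat]
  exact h

theorem pnt_cont {M : Type} [MetricSpace M] (p : M) (η : ℕ → M → M) (r : ℝ)
    (hc : ∀ n, Continuous (η n)) (hd : ∀ n u, dist (η n u) p ≤ r / (n + 1)) :
    Continuous fun q : M × OnePoint ℕ => ex (fun n => η n q.1) p q.2 := by
  have hlim : Tendsto (fun n : ℕ => r / ((n : ℝ) + 1)) atTop (𝓝 0) := by
    have := (tendsto_one_div_add_atTop_nhds_zero_nat (𝕜 := ℝ)).const_mul r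
    rw [mul_zero] at this
    refine this.congr fun n => ?_
    rw [mul_one_div]
  have hex := ex_cont _ _ hlim
  rw [continuous_iff_continuousAt]
  rintro ⟨t₀, n₀⟩
  induction n₀ using OnePoint.rec with
  | infty =>
    rw [ContinuousAt]
    simp only [ex_inf]
    rw [tendsto_iff_dist_tendsto_zero]
    have h0 : Tendsto (fun q : M × OnePoint ℕ => ex (fun n : ℕ => r / ((n : ℝ) + 1)) 0 q.2)
        (𝓝 (t₀, OnePoint.infty)) (𝓝 0) := by
      have h1 := (hex.comp (continuous_snd (X := M) (Y := OnePoint ℕ))).tendsto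
        (t₀, OnePoint.infty)
      exact h1
    refine squeeze_zero (fun _ => dist_nonneg) ?_ h0
    rintro ⟨t, n⟩
    induction n using OnePoint.rec with
    | infty =>
      simp only [ex_inf, dist_self]
      exact le_rfl
    | coe n =>
      simp only [ex_nat]
      exact hd n t
  | coe j =>
    have ho : IsOpen ({((j : ℕ) : OnePoint ℕ)} : Set (OnePoint ℕ)) := by
      have h1 := OnePoint.isOpenEmbedding_coe (X := ℕ).isOpenMap {j} (isOpen_discrete _)
      rwa [Set.image_singleton] at h1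
    have hev : ∀ᶠ q : M × OnePoint ℕ in 𝓝 (t₀, ((j : ℕ) : OnePoint ℕ)),
        q.2 ∈ ({((j : ℕ) : OnePoint ℕ)} : Set (OnePoint ℕ)) :=
      (continuous_snd.continuousAt (x := (t₀, ((j : ℕ) : OnePoint ℕ)))).eventually
        (ho.mem_nhds rfl)
    have h2 : ContinuousAt (fun q : M × OnePoint ℕ => η j q.1) (t₀, ((j : ℕ) : OnePoint ℕ)) :=
      ((hc j).comp continuous_fst).continuousAt
    refine h2.congr ?_
    filter_upwards [hev] with q hq
    have hq' : q.2 = ((j : ℕ) : OnePoint ℕ) := hq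
    show η j q.1 = ex (fun n => η n q.1) p q.2
    rw [hq', ex_nat]

/-- the difference which occurs in the projection, at all places of the sequence -/
noncomputable def Dd {S M : Type} [TopologicalSpace S] [MetricSpace M] (p : ℕ → ℕ → M)
    (η : ℕ → ℕ → ℕ → M → M) (g : S × M → ℝ) (m k : ℕ) (q : (S × M) × OnePoint ℕ) : ℝ :=
  g (q.1.1, ex (fun n => η m k n q.1.2) (p m k) q.2) - g (q.1.1, p m k)

theorem prm : PrmStmt := by
  intro S M _ _ _ O ρ χ ψ K c p η w hP hS g hg
  have hgc : Continuous g := hg.1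
  have hg0 : ∀ x, x ∉ O → g x = 0 := hg.2
  have hDc : ∀ m k, Continuous (Dd p η g m k) := by
    intro m k
    have h0 := pnt_cont (p m k) (η m k) ((1 / 2 : ℝ) ^ (m + 6)) (hS.cont m k) (hS.conv m k)
    have h1 : Continuous fun q : (S × M) × OnePoint ℕ =>
        ex (fun n => η m k n q.1.2) (p m k) q.2 :=
      h0.comp ((continuous_snd.comp continuous_fst).prodMk continuous_snd)
    have e1 : Continuous fun q : (S × M) × OnePoint ℕ =>
        (q.1.1, ex (fun n => η m k n q.1.2) (p m k) q.2) :=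
      (continuous_fst.comp continuous_fst).prodMk h1
    have e2 : Continuous fun q : (S × M) × OnePoint ℕ => (q.1.1, p m k) :=
      (continuous_fst.comp continuous_fst).prodMk continuous_const
    exact (hgc.comp e1).sub (hgc.comp e2)
  have hDinf : ∀ m k x, Dd p η g m k (x, OnePoint.infty) = 0 := by
    intro m k x
    simp only [Dd, ex_inf, sub_self]
  have hsupp : ∀ m k x, χ m k x ≠ 0 → k < K m ∧ (1 / 2 : ℝ) ^ (m + 2) < ρ x ∧
      ρ x < 4 * (1 / 2 : ℝ) ^ m ∧ dist x.2 (c m k) < (1 / 2 : ℝ) ^ (m + 5) := by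
    intro m k x hx
    apply hP.supp m k x
    rw [hP.one m k x hx]
    exact one_ne_zero
  let Gf : (S × M) × OnePoint ℕ → ℝ := fun q =>
    ∑ᶠ α : ℕ × ℕ, χ α.1 α.2 q.1 * Dd p η g α.1 α.2 q
  have hχ0 : ∀ x, x ∉ O → ∀ m k, χ m k x = 0 := by
    intro x hx m k
    by_contra hne
    have h1 := (hsupp m k x hne).2.1
    have h2 : ρ x ≠ 0 := by
      have : (0 : ℝ) < (1 / 2 : ℝ) ^ (m + 2) := by positivity
      exact (this.trans h1).ne'
    exact hx ((hP.zero x).1 h2)
  have hGO : ∀ x, x ∉ O → ∀ n, Gf (x, n) = 0 := by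
    intro x hx n
    have : ∀ α : ℕ × ℕ, χ α.1 α.2 x * Dd p η g α.1 α.2 (x, n) = 0 := by
      intro α
      rw [hχ0 x hx, zero_mul]
    show ∑ᶠ α : ℕ × ℕ, χ α.1 α.2 x * Dd p η g α.1 α.2 (x, n) = 0
    simp only [this, finsum_zero]
  have hGi : ∀ x, Gf (x, OnePoint.infty) = 0 := by
    intro x
    show ∑ᶠ α : ℕ × ℕ, χ α.1 α.2 x * Dd p η g α.1 α.2 (x, OnePoint.infty) = 0
    simp only [hDinf, mul_zero, finsum_zero]
  -- the finite set
  have hfin : ∀ r : ℝ, 0 < r → ∃ T : Finset (ℕ × ℕ), ∀ x, r < ρ x → ∀ α : ℕ × ℕ,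
      χ α.1 α.2 x ≠ 0 → α ∈ T := by
    intro r hr
    obtain ⟨N, hN⟩ := exists_pow_lt_of_lt_one (show (0 : ℝ) < r / 4 by linarith)
      (show (1 / 2 : ℝ) < 1 by norm_num)
    refine ⟨Finset.range N ×ˢ Finset.range ((Finset.range N).sup K), ?_⟩
    intro x hx α hne
    obtain ⟨h1, _, h3, _⟩ := hsupp _ _ _ hne
    have hm : α.1 < N := by
      by_contra hle
      have hle' : N ≤ α.1 := Nat.le_of_not_lt hle
      have h4 : (1 / 2 : ℝ) ^ α.1 ≤ (1 / 2 : ℝ) ^ N :=
        pow_le_pow_of_le_one (by norm_num) (by norm_num) hle'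
      linarith
    rw [Finset.mem_product, Finset.mem_range, Finset.mem_range]
    exact ⟨hm, h1.trans_le (Finset.le_sup (f := K) (Finset.mem_range.2 hm))⟩
  have hsumT : ∀ (T : Finset (ℕ × ℕ)) (x : S × M) (f : ℕ × ℕ → ℝ),
      (∀ α : ℕ × ℕ, χ α.1 α.2 x ≠ 0 → α ∈ T) →
      ∑ᶠ α : ℕ × ℕ, χ α.1 α.2 x * f α = ∑ α ∈ T, χ α.1 α.2 x * f α := by
    intro T x f hT
    apply finsum_eq_sum_of_support_subset
    intro α hα
    have hne : χ α.1 α.2 x ≠ 0 := by
      intro h0
      apply hα
      simp only [h0, zero_mul]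
    exact hT α hne
  have hGc : Continuous Gf := by
    rw [continuous_iff_continuousAt]
    intro p₀
    by_cases hO : p₀.1 ∈ O
    · -- finitely many terms
      have hρ0 : ρ p₀.1 ≠ 0 := (hP.zero _).2 hO
      have hρ : 0 < ρ p₀.1 := lt_of_le_of_ne (hP.nonneg _) hρ0.symm
      obtain ⟨T, hT⟩ := hfin (ρ p₀.1 / 2) (by linarith)
      have hnb : ∀ᶠ q : (S × M) × OnePoint ℕ in 𝓝 p₀, ρ p₀.1 / 2 < ρ q.1 := by
        have hc : Continuous fun q : (S × M) × OnePoint ℕ => ρ q.1 :=
          ρ.continuous.comp continuous_fst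
        exact hc.continuousAt.eventually (lt_mem_nhds (by linarith : ρ p₀.1 / 2 < ρ p₀.1))
      have hev : Gf =ᶠ[𝓝 p₀] fun q => ∑ α ∈ T, χ α.1 α.2 q.1 * Dd p η g α.1 α.2 q := by
        filter_upwards [hnb] with q hq
        exact hsumT T q.1 (fun α => Dd p η g α.1 α.2 q) (fun α hα => hT q.1 hq α hα)
      refine ContinuousAt.congr ?_ hev.symm
      refine Continuous.continuousAt ?_
      refine continuous_finsetSum _ fun α _ => ?_
      exact ((χ α.1 α.2).continuous.comp continuous_fst).mul (hDc _ _)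
    · -- small
      obtain ⟨⟨s₀, t₀⟩, n₀⟩ := p₀
      have hO' : ((s₀, t₀) : S × M) ∉ O := hO
      have hv : Gf ((s₀, t₀), n₀) = 0 := hGO _ hO' _
      rw [ContinuousAt, hv, Metric.tendsto_nhds]
      intro ε hε
      have hgx : ContinuousAt g (s₀, t₀) := hgc.continuousAt
      rw [ContinuousAt, hg0 _ hO', Metric.tendsto_nhds] at hgx
      have h1 := hgx (ε / 8) (by linarith)
      rw [nhds_prod_eq, Filter.eventually_prod_iff] at h1
      obtain ⟨pa, hpa, pb, hpb, hab⟩ := h1
      obtain ⟨δ, hδ, hδb⟩ := Metric.eventually_nhds_iff.1 hpb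
      have hρ0 : ρ (s₀, t₀) = 0 := by
        by_contra hne
        exact hO' ((hP.zero _).1 hne)
      have e1 : ∀ᶠ q : (S × M) × OnePoint ℕ in 𝓝 ((s₀, t₀), n₀), pa q.1.1 :=
        (continuous_fst.comp continuous_fst).continuousAt.eventually hpa
      have e2 : ∀ᶠ q : (S × M) × OnePoint ℕ in 𝓝 ((s₀, t₀), n₀), dist q.1.2 t₀ < δ / 2 := by
        have hc : Continuous fun q : (S × M) × OnePoint ℕ => dist q.1.2 t₀ :=
          (continuous_snd.comp continuous_fst).dist continuous_const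
        refine hc.continuousAt.eventually (gt_mem_nhds ?_)
        simp only [dist_self]
        linarith
      have e3 : ∀ᶠ q : (S × M) × OnePoint ℕ in 𝓝 ((s₀, t₀), n₀), ρ q.1 < δ / 2 := by
        have hc : Continuous fun q : (S × M) × OnePoint ℕ => ρ q.1 :=
          ρ.continuous.comp continuous_fst
        refine hc.continuousAt.eventually (gt_mem_nhds ?_)
        show ρ (s₀, t₀) < δ / 2
        rw [hρ0]
        linarith
      filter_upwards [e1, e2, e3] with q hp1 hp2 hp3
      obtain ⟨⟨s, t⟩, n⟩ := q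
      simp only at hp1 hp2 hp3
      rw [Real.dist_eq, sub_zero]
      by_cases hx : ((s, t) : S × M) ∈ O
      swap
      · rw [hGO _ hx, abs_zero]
        exact hε
      have hρx : 0 < ρ (s, t) := lt_of_le_of_ne (hP.nonneg _) ((hP.zero _).2 hx).symm
      obtain ⟨T, hT⟩ := hfin (ρ (s, t) / 2) (by linarith)
      have hT' : ∀ α : ℕ × ℕ, χ α.1 α.2 (s, t) ≠ 0 → α ∈ T :=
        fun α hα => hT (s, t) (by linarith) α hα
      have hsum : Gf ((s, t), n) =
          ∑ α ∈ T, χ α.1 α.2 (s, t) * Dd p η g α.1 α.2 ((s, t), n) :=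
        hsumT T (s, t) (fun α => Dd p η g α.1 α.2 ((s, t), n)) hT'
      have hone : ∑ α ∈ T, χ α.1 α.2 (s, t) = 1 := by
        have h2 := hsumT T (s, t) (fun _ => 1) hT'
        simp only [mul_one] at h2
        rw [← h2]
        exact hP.cover _ hx
      have hterm : ∀ α ∈ T, |χ α.1 α.2 (s, t) * Dd p η g α.1 α.2 ((s, t), n)| ≤
          χ α.1 α.2 (s, t) * (ε / 4) := by
        intro α _
        have hc0 := hP.chi0 α.1 α.2 (s, t)
        rw [abs_mul, abs_of_nonneg hc0]
        by_cases hne : χ α.1 α.2 (s, t) = 0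
        · rw [hne, zero_mul, zero_mul]
        obtain ⟨hk, h2, _, h4⟩ := hsupp _ _ _ hne
        have h4' : dist t (c α.1 α.2) < (1 / 2 : ℝ) ^ (α.1 + 5) := h4
        have hwp : w α.1 α.2 (p α.1 α.2) ≠ 0 := by
          rw [hS.onep α.1 α.2 hk]
          exact one_ne_zero
        have h5 : dist (p α.1 α.2) (c α.1 α.2) < (1 / 2 : ℝ) ^ (α.1 + 5) :=
          (hS.supp _ _ _ hwp).2
        have hq : (0 : ℝ) < (1 / 2 : ℝ) ^ (α.1 + 2) := by positivity
        have q5 : (1 / 2 : ℝ) ^ (α.1 + 5) = (1 / 2 : ℝ) ^ (α.1 + 2) / 8 := by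
          rw [show α.1 + 5 = (α.1 + 2) + 3 from rfl, pow_add]
          norm_num
          ring
        have q6 : (1 / 2 : ℝ) ^ (α.1 + 6) = (1 / 2 : ℝ) ^ (α.1 + 2) / 16 := by
          rw [show α.1 + 6 = (α.1 + 2) + 4 from rfl, pow_add]
          norm_num
          ring
        have hnear : ∀ u : M, dist u (p α.1 α.2) ≤ (1 / 2 : ℝ) ^ (α.1 + 6) →
            |g (s, u)| < ε / 8 := by
          intro u hu
          have h6 : dist u t₀ < δ := by
            have h7 := dist_triangle4 u (p α.1 α.2) (c α.1 α.2) t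
            have h8 := dist_triangle u t t₀
            rw [dist_comm (c α.1 α.2) t] at h7
            have h9 : (1 / 2 : ℝ) ^ (α.1 + 2) < δ / 2 := h2.trans hp3
            linarith
          have h10 := hab hp1 (hδb h6)
          rwa [Real.dist_eq, sub_zero] at h10
        have hD : |Dd p η g α.1 α.2 ((s, t), n)| ≤ ε / 4 := by
          have d1 : |g (s, ex (fun j => η α.1 α.2 j t) (p α.1 α.2) n)| < ε / 8 := by
            apply hnear
            induction n using OnePoint.rec with
            | infty =>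
              simp only [ex_inf, dist_self]
              positivity
            | coe n =>
              simp only [ex_nat]
              refine (hS.conv α.1 α.2 n t).trans ?_
              apply div_le_self (by positivity)
              have : (0 : ℝ) ≤ n := Nat.cast_nonneg n
              linarith
          have d2 := hnear (p α.1 α.2) (by rw [dist_self]; positivity)
          have d3 : |Dd p η g α.1 α.2 ((s, t), n)| ≤
              |g (s, ex (fun j => η α.1 α.2 j t) (p α.1 α.2) n)| + |g (s, p α.1 α.2)| :=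
            abs_sub _ _
          linarith
        exact mul_le_mul_of_nonneg_left hD hc0
      rw [hsum]
      calc |∑ α ∈ T, χ α.1 α.2 (s, t) * Dd p η g α.1 α.2 ((s, t), n)|
          ≤ ∑ α ∈ T, |χ α.1 α.2 (s, t) * Dd p η g α.1 α.2 ((s, t), n)| :=
            Finset.abs_sum_le_sum_abs _ _
        _ ≤ ∑ α ∈ T, χ α.1 α.2 (s, t) * (ε / 4) := Finset.sum_le_sum hterm
        _ = ε / 4 := by rw [← Finset.sum_mul, hone, one_mul]
        _ < ε := by linarith
  refine ⟨Gf, ⟨hGc, hGO, hGi⟩, ?_⟩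
  intro x n
  rfl


end Pool.Agent.SSF.H56
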